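import Pool.Agent.Helper74.RN.St

set_option autoImplicit false

namespace Pool.Agent.Helper22.RN

open Pool.Agent.Helper74 Pool.Agent.Helper74.RN

section

variable {G : Type}

private theorem mmd_half (hFCT : StFCT) (N : ℕ) (A : Ce G) (d : ℤ) (i : ℕ) (w₁ w₂ Z : List (Ce G))
    (f : Ce G) (hA : A ≠ .s) (hi : i < N) (hE : Ed d w₁) (hf : f ≠ .s)
    (h : w₁ ++ f :: w₂ = List.replicate (N - 1 - i) A ++ .s :: (List.replicate N .c ++ .s :: Z)) :
    ∃ j : ℕ, j < N ∧ (j : ℤ) = i + d ∧ w₂ = List.replicate j .c ++ .s :: Z := by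
  obtain ⟨p₁, q₁, hw, hp, hq, hlen⟩ := hE
  rw [hw, List.append_assoc, List.cons_append] at h
  obtain ⟨h1, h2⟩ := (hFCT G).1 _ _ _ _ hp (ns_replicate _ _ hA) h
  obtain ⟨-, h3, -, h4⟩ := (hFCT G).2 .c f N Z q₁ w₂ (by simp) hf hq h2.symm
  refine ⟨N - 1 - q₁.length, by omega, ?_, h4⟩
  rw [h1, List.length_replicate] at hlen
  omega

private theorem mmd_step (hFCT : StFCT) (N : ℕ) (A B : Ce G) (d : ℤ) (q₀ w₁ w₂ Z : List (Ce G))
    (f : Ce G) (hA : A ≠ .s) (hB : B ≠ .s) (hq : ns q₀) (hE : Ed d w₁) (hf : f ≠ .s)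
    (h : List.replicate N B ++ .s :: (List.replicate N .c ++ .s :: Z) =
      q₀ ++ A :: (w₁ ++ f :: w₂)) :
    A = B ∧ q₀.length < N ∧
    ∃ j : ℕ, j < N ∧ (j : ℤ) = q₀.length + d ∧ w₂ = List.replicate j .c ++ .s :: Z := by
  obtain ⟨-, h1, h2, h3⟩ := (hFCT G).2 B A N _ q₀ _ hB hA hq h
  exact ⟨h2, h1, mmd_half hFCT N B d q₀.length w₁ w₂ Z f hB h1 hE hf h3⟩

private theorem mmd_bk (N : ℕ) (B : Ce G) (l q : List (Ce G)) :
    (B :: l).flatMap (bk N) ++ q =
      List.replicate N B ++ .s :: (List.replicate N .c ++ .s :: (l.flatMap (bk N) ++ q)) := by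
  simp [bk, List.append_assoc]

end

theorem hMMD (hFCT : StFCT) (hPOS : StPOS) : Pool.Agent.Helper74.RN.StMMD := by
  intro G R N w hw
  induction hw with
  | e w hE =>
    intro l p q hl hp hq h
    obtain ⟨p', q', hw', hp', hq', hlen⟩ := hE
    rw [hw'] at h
    obtain ⟨h1, h2⟩ := (hFCT G).1 _ _ _ _ hp' hp h
    cases l with
    | nil =>
      rw [List.flatMap_nil, List.nil_append] at h2
      have : p.length = q.length := by
        rw [← h1, ← h2]
        omega
      rw [this]
      exact Rn.nil _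
    | cons B l =>
      rw [mmd_bk] at h2
      exfalso
      apply hq' .s
      · rw [h2]
        simp
      · rfl
  | one A d w₀ w₁ f w₂ hSh hE0 hE1 hf _ ih =>
    intro l p q hl hp hq h
    obtain ⟨p₀, q₀, hw₀, hp₀, hq₀, hlen⟩ := hE0
    rw [hw₀, List.append_assoc, List.cons_append] at h
    obtain ⟨h1, h2⟩ := (hFCT G).1 _ _ _ _ hp₀ hp h
    cases l with
    | nil =>
      rw [List.flatMap_nil, List.nil_append] at h2
      exfalso
      apply hq .s
      · rw [← h2]
        have := ed_mem d w₁ hE1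
        simp [this]
      · rfl
    | cons B l =>
      rw [mmd_bk] at h2
      rw [ns_cons] at hl
      obtain ⟨hAB, hi, j, hj, hjd, hw₂⟩ := mmd_step hFCT N A B d q₀ w₁ w₂ _ f (sh_ne A d hSh) hl.1
        hq₀ hE1 hf h2.symm
      have h3 := ih l (List.replicate j .c) q hl.2 (ns_replicate _ _ (by simp)) hq hw₂
      rw [List.length_replicate] at h3
      have h4 : p.length = q₀.length := by
        rw [← h1]
        omega
      rw [h4, ← hAB]
      exact Rn.one A d l q₀.length j q.length hSh hi hj hjd h3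
  | two x y w₀ w₁ f m w₃ f' m' hxy hE0 hE1 hf _ hE3 hf' _ ihm ihm' =>
    intro l p q hl hp hq h
    obtain ⟨p₀, q₀, hw₀, hp₀, hq₀, hlen⟩ := hE0
    rw [hw₀, List.append_assoc, List.cons_append] at h
    obtain ⟨h1, h2⟩ := (hFCT G).1 _ _ _ _ hp₀ hp h
    cases l with
    | nil =>
      rw [List.flatMap_nil, List.nil_append] at h2
      exfalso
      apply hq .s
      · rw [← h2]
        have := ed_mem 0 w₁ hE1
        simp [this]
      · rfl
    | cons B l =>
      rw [mmd_bk] at h2
      rw [ns_cons] at hl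
      obtain ⟨hAB, hi, j, hj, hjd, hw₂⟩ := mmd_step hFCT N (.a x) B 0 q₀ w₁ _ _ f (by simp) hl.1
        hq₀ hE1 hf h2.symm
      have hji : j = q₀.length := by omega
      rw [hji] at hw₂
      obtain ⟨u, v, t, hluv, ht, hm, hX⟩ := hPOS G N y l q m (w₃ ++ f' :: m')
        (List.replicate q₀.length .c) hl.2 hq (fun z hz => List.eq_of_mem_replicate hz)
        (by
          have := ed_mem 0 w₃ hE3
          simp [this]) hw₂.symm
      have hl2 := hl.2
      rw [hluv, ns_append, ns_cons] at hl2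
      have h5 := ihm u (List.replicate q₀.length .c) (List.replicate t (.a y)) hl2.1
        (ns_replicate _ _ (by simp)) (ns_replicate _ _ (by simp)) hm
      rw [List.length_replicate, List.length_replicate] at h5
      obtain ⟨j', _, hjt, hm'⟩ := mmd_half hFCT N (.a y) 0 t w₃ m' _ f' (by simp) ht hE3 hf' hX
      have hj't : j' = t := by omega
      rw [hj't] at hm'
      have h6 := ihm' v (List.replicate t .c) q hl2.2.2 (ns_replicate _ _ (by simp)) hq hm'
      rw [List.length_replicate] at h6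
      have h4 : p.length = q₀.length := by
        rw [← h1]
        omega
      rw [h4, ← hAB, hluv]
      exact Rn.two x y u v q₀.length t q.length hxy hi ht h5 h6

end Pool.Agent.Helper22.RN
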